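import Pool.Agent.Run7.h222.SU.Stm

set_option autoImplicit false

/-!
# Project SU (helper222), piece W, by helper216
-/

namespace Run7.h216.SU

open Matrix Pool.Agent.H16.SUn Run7.h222.SU

theorem weight (A B : ℝ) (h : A * B ≤ 0) : ∃ w : ℝ, 0 ≤ w ∧ w ≤ 1 ∧ w * B + (1 - w) * A = 0 := by
  by_cases hAB : A = B
  · subst hAB
    have hA : A = 0 := by nlinarith [mul_self_nonneg A]
    exact ⟨0, le_rfl, zero_le_one, by rw [hA]; ring⟩
  · have hne : A - B ≠ 0 := sub_ne_zero.2 hAB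
    have hne' : B - A ≠ 0 := sub_ne_zero.2 (Ne.symm hAB)
    rcases mul_nonpos_iff.1 h with ⟨h1, h2⟩ | ⟨h1, h2⟩
    · have hpos : 0 < A - B := lt_of_le_of_ne (by linarith) hne.symm
      refine ⟨A / (A - B), div_nonneg h1 hpos.le, (div_le_one hpos).2 (by linarith), ?_⟩
      field_simp
      ring
    · have hpos : 0 < B - A := lt_of_le_of_ne (by linarith) hne'.symm
      refine ⟨-A / (B - A), div_nonneg (by linarith) hpos.le, (div_le_one hpos).2 (by linarith), ?_⟩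
      field_simp
      ring

theorem two_exp (a x : ℝ) : Complex.exp ((x : ℂ) * Complex.I) +
    Complex.exp ((2 * (a : ℂ) - x) * Complex.I) =
    Complex.exp ((a : ℂ) * Complex.I) * ((2 * Real.cos (a - x) : ℝ) : ℂ) := by
  push_cast
  rw [Complex.two_cos, mul_add, ← Complex.exp_add, ← Complex.exp_add, add_comm]
  congr 2 <;> ring

theorem cos_diff (φ η τ : ℝ) : Real.cos ((τ - η) / 2 - φ) - Real.cos ((τ + η) / 2) =
    2 * (Real.sin ((τ - φ) / 2) * Real.sin ((φ + η) / 2)) := by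
  rw [Real.cos_sub_cos]
  have e1 : ((τ - η) / 2 - φ + (τ + η) / 2) / 2 = (τ - φ) / 2 := by ring
  have e2 : ((τ - η) / 2 - φ - (τ + η) / 2) / 2 = -((φ + η) / 2) := by ring
  rw [e1, e2, Real.sin_neg]
  ring

/-- **W** -/
theorem t_W : S_W := by
  intro φ γ η τ h
  obtain ⟨w, h0, h1, hw⟩ := weight
    (Real.cos ((τ - η) / 2 - φ) - Real.cos ((τ + η) / 2))
    (Real.cos ((τ - η) / 2 - γ) - Real.cos ((τ + η) / 2)) (by
      rw [cos_diff, cos_diff]
      nlinarith)
  refine ⟨w, h0, h1, ?_⟩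
  have e1 : ∀ x : ℝ, Complex.exp ((x : ℂ) * Complex.I) +
      Complex.exp (((τ : ℂ) - η - x) * Complex.I) =
      Complex.exp ((((τ - η) / 2 : ℝ) : ℂ) * Complex.I) *
        ((2 * Real.cos ((τ - η) / 2 - x) : ℝ) : ℂ) := by
    intro x
    rw [← two_exp]
    congr 3
    push_cast
    ring
  have e2 : Complex.exp ((τ : ℂ) * Complex.I) + Complex.exp (-((η : ℂ) * Complex.I)) =
      Complex.exp ((((τ - η) / 2 : ℝ) : ℂ) * Complex.I) *
        ((2 * Real.cos ((τ + η) / 2) : ℝ) : ℂ) := by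
    have h2 := e1 τ
    have h3 : ((τ : ℂ) - η - τ) * Complex.I = -((η : ℂ) * Complex.I) := by ring
    have h4 : (τ - η) / 2 - τ = -((τ + η) / 2) := by ring
    rw [h3, h4, Real.cos_neg] at h2
    exact h2
  have e3 : (Real.cos ((τ + η) / 2) : ℝ) = w * Real.cos ((τ - η) / 2 - γ) +
      (1 - w) * Real.cos ((τ - η) / 2 - φ) := by linarith
  rw [e2, add_comm (Complex.exp (((τ : ℂ) - η - γ) * Complex.I)), e1 γ, e1 φ, e3]
  push_cast
  ring

end Run7.h216.SU
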